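import Mathlib
import Pool.Agent.H919.PC.Trans

/-!
# MP_3191e9_an: in a tiling of the separable Hilbert space by translates of a bounded convex body the
# set of the centres is not weakly closed

Author: helper919. Some geometric lemmas in `Pool/Agent/H919/PC/Core.lean` are adapted from the
unfinished project PC (helper242, 559, 664, 216) of an earlier run.

Let `H` be an infinite-dimensional separable real Hilbert space and let `{a + K : a ∈ A}` be a tiling by
translates of a bounded convex body `K`. Since `K` is weakly compact and the tiles are countably many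
weakly closed sets that are separated by hyperplanes, Baire's theorem in the weak topology of `K` gives
weakly dense many points `q ∈ K` of weak-to-norm continuity (PC points) such that `a + q` belongs to
no other tile. Such a point is approached by infinitely many tiles `b n + K`. If `b n` converges weakly
to some `c ∈ A`, then `a + q ∈ c + K`, so `c = a`, and then weak-to-norm continuity gives norm
convergence of `b n`, which is impossible as the centres are separated. Hence all weak limits of the
centres of the approaching tiles are outside of `A`.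

For all tilings by bounded convex bodies: Baire's theorem in the norm closure of the set of the PC
points of all tiles shows that near each PC point there is a PC point `q` of some tile with a positive
distance to the PC points of all other tiles.
-/

set_option autoImplicit false

open Metric Set Filter Topology

namespace Pool.Agent.Results.MP_3191e9_an.WeakCentres

universe u

section defs

variable {H : Type u} [NormedAddCommGroup H] [InnerProductSpace ℝ H]

/-- `K` is a bounded convex body. -/
def IsBody (K : Set H) : Prop :=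
  IsClosed K ∧ Convex ℝ K ∧ Bornology.IsBounded K ∧ (interior K).Nonempty

/-- `𝒯` is a tiling of `H` by bounded convex bodies. -/
def IsTiling (𝒯 : Set (Set H)) : Prop :=
  (∀ T ∈ 𝒯, IsBody T) ∧ ⋃₀ 𝒯 = univ ∧ 𝒯.Pairwise fun S T => Disjoint (interior S) (interior T)

/-- The translate `a + K`. -/
def translate (K : Set H) (a : H) : Set H := {x | x - a ∈ K}

/-- The translates `a + K`, `a ∈ A`, are a tiling of `H`. -/
def TilesBy (K A : Set H) : Prop :=
  (⋃ a ∈ A, translate K a) = univ ∧
    A.Pairwise fun a b => Disjoint (interior (translate K a)) (interior (translate K b))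

/-- The sequence `u` converges weakly to `y`. -/
def WeakLimit (u : ℕ → H) (y : H) : Prop :=
  ∀ h : H, Tendsto (fun n => inner ℝ h (u n)) atTop (𝓝 (inner ℝ h y))

/-- The set `A` is weakly sequentially closed. -/
def IsWeaklyClosed (A : Set H) : Prop :=
  ∀ (u : ℕ → H) (y : H), (∀ n, u n ∈ A) → WeakLimit u y → y ∈ A

/-- `y` is a point of weak-to-norm continuity of `K`: sequences in `K` that converge weakly to `y`
converge in norm. -/
def IsPCPoint (K : Set H) (y : H) : Prop :=
  y ∈ K ∧ ∀ u : ℕ → H, (∀ n, u n ∈ K) → WeakLimit u y → Tendsto u atTop (𝓝 y)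

/-- Each weak neighbourhood of each point of `K` contains a point of `K` with the property `P`. -/
def WeaklyDenselyIn (K : Set H) (P : H → Prop) : Prop :=
  ∀ y ∈ K, ∀ (F : Finset H) (η : ℝ), 0 < η →
    ∃ q ∈ K, (∀ h ∈ F, |(inner ℝ h q : ℝ) - inner ℝ h y| < η) ∧ P q

/-- Every neighbourhood of `q` meets infinitely many tiles. -/
def IsSingular (𝒯 : Set (Set H)) (q : H) : Prop :=
  ∀ ε > 0, {T | T ∈ 𝒯 ∧ (T ∩ ball q ε).Nonempty}.Infinite

/-- The tiles with the pairwise distinct centres `b n ∈ A` approach the point `q`. -/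
def Approach (K A : Set H) (b : ℕ → H) (q : H) : Prop :=
  Function.Injective b ∧ (∀ n, b n ∈ A) ∧
    ∃ x : ℕ → H, (∀ n, x n ∈ translate K (b n)) ∧ Tendsto x atTop (𝓝 q)

end defs

section lemmas

variable {H : Type u} [NormedAddCommGroup H] [InnerProductSpace ℝ H]

open Pool.Agent.H919.PC

theorem toC {𝒯 : Set (Set H)} (h : IsTiling 𝒯) : CTiling 𝒯 where
  closed T hT := (h.1 T hT).1
  convex T hT := (h.1 T hT).2.1
  bdd T hT := (h.1 T hT).2.2.1
  int T hT := (h.1 T hT).2.2.2
  cov := h.2.1
  dis := h.2.2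

theorem toTr {K A : Set H} (h : TilesBy K A) : TrTiling K A := by
  refine ⟨fun x => ?_, fun a ha b hb hne => h.2 ha hb hne⟩
  have hx : x ∈ ⋃ a ∈ A, translate K a := by rw [h.1]; trivial
  obtain ⟨a, ha, hx⟩ := mem_iUnion₂.1 hx
  exact ⟨a, ha, hx⟩

end lemmas

open Pool.Agent.H919.PC in
/-- **Tilings of the separable Hilbert space and the weak topology.** -/
theorem result (H : Type u) [NormedAddCommGroup H] [InnerProductSpace ℝ H] [CompleteSpace H]
    [TopologicalSpace.SeparableSpace H] (hinf : ¬ FiniteDimensional ℝ H) :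
    -- no tiling by translates of a bounded convex body has a weakly closed set of centres
    (∀ K A : Set H, IsBody K → TilesBy K A → ¬ IsWeaklyClosed A) ∧
    -- in particular its set of centres is not a subgroup given by its dual
    (∀ K Λ : Set H, IsBody K → ¬ TilesBy K {x | ∀ f ∈ Λ, ∃ m : ℤ, inner ℝ f x = (m : ℝ)}) ∧
    -- more precisely, in a tiling by translates, for each tile `a + K` there are weakly dense many
    -- PC points `q` of `K` with `a + q` in no other tile, and each such point `a + q` is approached by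
    -- tiles with weakly convergent distinct centres, but never with a weak limit in `A`
    (∀ K A : Set H, IsBody K → TilesBy K A → ∀ a ∈ A,
      WeaklyDenselyIn K (fun q => IsPCPoint K q ∧ ∀ b ∈ A, b ≠ a → a + q ∉ translate K b) ∧
      ∀ q, IsPCPoint K q → (∀ b ∈ A, b ≠ a → a + q ∉ translate K b) →
        (∃ (b : ℕ → H) (c : H), Approach K A b (a + q) ∧ WeakLimit b c) ∧
        ∀ (b : ℕ → H) (c : H), Approach K A b (a + q) → WeakLimit b c → c ∉ A) ∧
    -- for all tilings by bounded convex bodies: each tile has weakly dense many PC points in no other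
    -- tile, and all PC points are singular
    (∀ 𝒯 : Set (Set H), IsTiling 𝒯 → ∀ T ∈ 𝒯,
      WeaklyDenselyIn T (fun q => IsPCPoint T q ∧ ∀ T' ∈ 𝒯, T' ≠ T → q ∉ T') ∧
      ∀ q, IsPCPoint T q → IsSingular 𝒯 q) ∧
    -- near each PC point of a tile there is a PC point of a tile that has a positive distance to the
    -- PC points of all other tiles
    (∀ 𝒯 : Set (Set H), IsTiling 𝒯 → ∀ T₁ ∈ 𝒯, ∀ q₀, IsPCPoint T₁ q₀ → ∀ ε > 0,
      ∃ T₀ ∈ 𝒯, ∃ q, IsPCPoint T₀ q ∧ ‖q - q₀‖ < ε ∧ ∃ ρ > 0,
        ∀ T ∈ 𝒯, T ≠ T₀ → ∀ y, IsPCPoint T y → ρ ≤ ‖y - q‖) := by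
  have h4 : ∀ 𝒯 : Set (Set H), IsTiling 𝒯 → ∀ T ∈ 𝒯,
      WeaklyDenselyIn T (fun q => IsPCPoint T q ∧ ∀ T' ∈ 𝒯, T' ≠ T → q ∉ T') ∧
      ∀ q, IsPCPoint T q → IsSingular 𝒯 q := by
    intro 𝒯 h𝒯 T hT
    refine ⟨fun y hy F η hη => ?_, fun q hq => ?_⟩
    · obtain ⟨q, hq, hq1, hq2⟩ := pc_alone (toC h𝒯) hT hy F hη
      exact ⟨q, hq.1, hq2, hq, hq1⟩
    · exact sing_of_pc kmp hinf (toC h𝒯) hT hq.1 (PCPt.isPC ((toC h𝒯).bdd T hT) hq)
  have h3 : ∀ K A : Set H, IsBody K → TilesBy K A → ∀ a ∈ A,
      WeaklyDenselyIn K (fun q => IsPCPoint K q ∧ ∀ b ∈ A, b ≠ a → a + q ∉ translate K b) ∧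
      ∀ q, IsPCPoint K q → (∀ b ∈ A, b ≠ a → a + q ∉ translate K b) →
        (∃ (b : ℕ → H) (c : H), Approach K A b (a + q) ∧ WeakLimit b c) ∧
        ∀ (b : ℕ → H) (c : H), Approach K A b (a + q) → WeakLimit b c → c ∉ A := by
    intro K A hK hA a ha
    have hT := (toTr hA).toC hK
    refine ⟨fun y hy F η hη => ?_, fun q hq hq2 => ⟨?_, ?_⟩⟩
    · have hy' : a + y ∈ tr K a := by
        show a + y - a ∈ K
        rwa [add_sub_cancel_left]
      obtain ⟨q, hq, hq1, hq2⟩ := pc_alone hT (T₀ := tr K a) ⟨a, ha, rfl⟩ hy' F hη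
      have h6 : IsPCPoint K (q - a) := by
        refine ⟨hq.1, fun u hu hw => ?_⟩
        have h7 := hq.2 (fun n => a + u n) (fun n => by
          show a + u n - a ∈ K
          rw [add_sub_cancel_left]
          exact hu n) (fun g => by
          have h8 := (hw g).const_add (inner ℝ g a : ℝ)
          simp only [← inner_add_right] at h8
          rwa [add_sub_cancel] at h8)
        have h8 := h7.add_const (-a)
        simpa [sub_eq_add_neg] using h8
      refine ⟨q - a, h6.1, fun h hh => ?_, h6, fun b hb hne hqb => ?_⟩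
      · have h7 := hq2 h hh
        rw [inner_add_right] at h7
        rw [inner_sub_right]
        have h8 : (inner ℝ h q : ℝ) - inner ℝ h a - inner ℝ h y =
            inner ℝ h q - (inner ℝ h a + inner ℝ h y) := by ring
        rwa [h8]
      · rw [add_sub_cancel] at hqb
        exact hq1 (tr K b) ⟨b, hb, rfl⟩ (fun e => hne ((toTr hA).inj hK hb ha e)) hqb
    · obtain ⟨b, x, hb, hbx, hx, c, hw⟩ := approach hinf hK (toTr hA) ha (pc_tr hq a)
      exact ⟨b, c, ⟨hb, fun n => (hbx n).1, x, fun n => (hbx n).2, hx⟩, hw⟩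
    · rintro b c ⟨hb, hbA, x, hx, hxq⟩ hw
      exact no_limit hK (toTr hA) ha (pc_tr hq a) hq2 hb (fun n => ⟨hbA n, hx n⟩) hxq hw
  have h1 : ∀ K A : Set H, IsBody K → TilesBy K A → ¬ IsWeaklyClosed A := by
    intro K A hK hA hcl
    obtain ⟨a, ha, -⟩ := (toTr hA).1 0
    obtain ⟨hd, hall⟩ := h3 K A hK hA a ha
    obtain ⟨y, hy⟩ := hK.2.2.2
    obtain ⟨q, -, -, hq, hq2⟩ := hd y (interior_subset hy) ∅ 1 one_pos
    obtain ⟨⟨b, c, hbc, hw⟩, hlim⟩ := hall q hq hq2
    exact hlim b c hbc hw (hcl b c hbc.2.1 hw)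
  refine ⟨h1, fun K Λ hK hA => h1 K _ hK hA ?_, h3, h4, ?_⟩
  · intro u y hu hw f hf
    have hcl : IsClosed (Set.range ((↑) : ℤ → ℝ)) := Int.isClosedEmbedding_coe_real.isClosed_range
    have h3 := hcl.mem_of_tendsto (hw f) (Eventually.of_forall fun n => by
      obtain ⟨m, hm⟩ := hu n f hf
      exact ⟨m, hm.symm⟩)
    obtain ⟨m, hm⟩ := h3
    exact ⟨m, hm.symm⟩
  · intro 𝒯 h𝒯 T₁ hT₁ q₀ hq₀ ε hε
    exact structureThm (toC h𝒯) ⟨T₁, hT₁, hq₀⟩ hε

end Pool.Agent.Results.MP_3191e9_an.WeakCentres
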