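import Pool.Graph.R_pool_sql_team_seeded_63374d34.N242.PC.Main
import Pool.Graph.R_pool_sql_team_seeded_63374d34.N216.PC.EXT
import Pool.Graph.R_pool_sql_team_seeded_63374d34.N402.PC.BDT
import Pool.Graph.R_pool_sql_team_seeded_63374d34.N559.PC.SET
import Pool.Graph.R_pool_sql_team_seeded_63374d34.N664.PC.FLT
import Pool.Graph.R_pool_sql_team_seeded_63374d34.N322.NT.REF

/-!
# Tilings of separable spaces and points of weak-to-norm continuity

Let `X` be a separable infinite-dimensional Banach space in which all nonempty closed bounded convex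
sets have extreme points (for example a reflexive space, such as the separable Hilbert space). In
every tiling of `X` by bounded convex bodies there is a tile `T` whose boundary has a nonempty
relatively open part without points of weak-to-norm continuity of `T`. So there is no tiling by
translates of a bounded convex body whose points of weak-to-norm continuity are dense in the
boundary, and no tiling by balls, of arbitrary radii, of an equivalent norm whose Kadec points are
dense in its unit sphere.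

The theorem is from the project PC (helper242) of the common library, with the parts by helper559
(SET), helper664 (FLT), helper216 (EXT), helper402 (BDT); helper322 (reflexive spaces).
-/

set_option autoImplicit false

open Metric Set Filter Topology

namespace Pool.Agent.Results.MP_3191e9_an.WeakToNormContinuity

universe u

section defs

variable {X : Type u} [NormedAddCommGroup X] [NormedSpace ℝ X]

/-- A bounded convex body: a bounded closed convex set with nonempty interior. -/
def IsBody (T : Set X) : Prop :=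
  IsClosed T ∧ Convex ℝ T ∧ Bornology.IsBounded T ∧ (interior T).Nonempty

/-- `𝒯` is a tiling of `X` by bounded convex bodies: the union of the tiles is `X` and their
interiors are pairwise disjoint. -/
def IsTiling (𝒯 : Set (Set X)) : Prop :=
  (∀ T ∈ 𝒯, IsBody T) ∧ ⋃₀ 𝒯 = univ ∧ 𝒯.Pairwise fun S T => Disjoint (interior S) (interior T)

/-- `y` is a point of weak-to-norm continuity of `T`: it is in `T`, and every ball around `y`
contains the intersection of `T` with a weak neighbourhood of `y`. -/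
def IsPC (T : Set X) (y : X) : Prop :=
  y ∈ T ∧ ∀ ε > 0, ∃ (F : Finset (X →L[ℝ] ℝ)) (η : ℝ), 0 < η ∧
    ∀ z ∈ T, (∀ f ∈ F, |f z - f y| < η) → ‖z - y‖ < ε

/-- The boundary of `T` has a nonempty relatively open part without points of weak-to-norm
continuity of `T`. -/
def HasBadPart (T : Set X) : Prop :=
  ∃ x ∈ frontier T, ∃ ε > 0, ∀ y, IsPC T y → ε ≤ ‖y - x‖

/-- The seminorm `M` is a norm which is equivalent to the norm of `X`. -/
def Equivalent (M : Seminorm ℝ X) : Prop :=
  ∃ c C : ℝ, 0 < c ∧ ∀ x, c * ‖x‖ ≤ M x ∧ M x ≤ C * ‖x‖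

/-- `e` is a Kadec point of the unit sphere of `M`: on the sphere the weak topology and the norm
topology coincide at `e`. -/
def IsKadecPoint (M : Seminorm ℝ X) (e : X) : Prop :=
  M e = 1 ∧ ∀ ε > 0, ∃ (F : Finset (X →L[ℝ] ℝ)) (η : ℝ), 0 < η ∧
    ∀ z, M z = 1 → (∀ f ∈ F, |f z - f e| < η) → ‖z - e‖ < ε

/-- `𝒯` is a tiling by `M`-balls: closed balls of positive (arbitrary, possibly different) radii. -/
def IsBallTiling (M : Seminorm ℝ X) (𝒯 : Set (Set X)) : Prop :=
  (∀ T ∈ 𝒯, ∃ (c : X) (r : ℝ), 0 < r ∧ T = M.closedBall c r) ∧ ⋃₀ 𝒯 = univ ∧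
    𝒯.Pairwise fun S T => Disjoint (interior S) (interior T)

variable (X)

/-- Every nonempty closed bounded convex subset of `X` has an extreme point. -/
def HasExtremePoints : Prop :=
  ∀ K : Set X, IsClosed K → Bornology.IsBounded K → Convex ℝ K → K.Nonempty →
    (K.extremePoints ℝ).Nonempty

/-- `X` is reflexive. -/
def IsReflexive : Prop := Function.Surjective (NormedSpace.inclusionInDoubleDual ℝ X)

end defs

section proofs

variable {X : Type u} [NormedAddCommGroup X] [NormedSpace ℝ X]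

theorem core [CompleteSpace X] (hK : HasExtremePoints X) (hinf : ¬ FiniteDimensional ℝ X)
    (𝒯 : Set (Set X)) (hT : IsTiling 𝒯) (hc : 𝒯.Countable) : ∃ T ∈ 𝒯, HasBadPart T := by
  by_contra hcon
  push Not at hcon
  refine Pool.Agent.N242.PC.main (Pool.Agent.N664.PC.FLT.t_FLT Pool.Agent.N559.PC.t_SET)
    Pool.Agent.N216.PC.t_EXT (Pool.Agent.N402.PC.t_BDT Pool.Agent.N559.PC.t_SET) X hK hinf 𝒯
    ⟨fun T h => (hT.1 T h).1, fun T h => (hT.1 T h).2.1, fun T h => (hT.1 T h).2.2.1,
      fun T h => (hT.1 T h).2.2.2, hT.2.1, hT.2.2⟩ hc ?_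
  intro T hTT x hx
  rw [Metric.mem_closure_iff]
  intro ε hε
  by_contra h
  push Not at h
  refine hcon T hTT ⟨x, hx, ε, hε, fun y hy => ?_⟩
  have h1 := h y ⟨hy.1, hy.2⟩
  rwa [dist_comm, dist_eq_norm] at h1

theorem countable_of_tiling [TopologicalSpace.SeparableSpace X] {𝒯 : Set (Set X)}
    (hT : IsTiling 𝒯) : 𝒯.Countable := by
  have h : 𝒯.PairwiseDisjoint interior := fun S hS T hTT hne => hT.2.2 hS hTT hne
  exact h.countable_of_isOpen (fun _ _ => isOpen_interior) fun T hTT => (hT.1 T hTT).2.2.2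

/-- translates -/
theorem pc_translate {K : Set X} {a y : X} (h : IsPC K y) : IsPC ((fun x => a + x) '' K) (a + y) := by
  refine ⟨⟨y, h.1, rfl⟩, fun ε hε => ?_⟩
  obtain ⟨F, η, hη, hF⟩ := h.2 ε hε
  refine ⟨F, η, hη, ?_⟩
  rintro _ ⟨z, hz, rfl⟩ hz2
  have := hF z hz fun f hf => by
    have h1 := hz2 f hf
    simpa using h1
  simpa using this

omit [NormedSpace ℝ X] in
theorem frontier_translate (K : Set X) (a : X) :
    frontier ((fun x => a + x) '' K) = (fun x => a + x) '' frontier K :=
  ((Homeomorph.addLeft a).image_frontier K).symm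

theorem bad_of_translate {K : Set X} {a : X} (h : HasBadPart ((fun x => a + x) '' K)) :
    HasBadPart K := by
  obtain ⟨x, hx, ε, hε, hb⟩ := h
  rw [frontier_translate] at hx
  obtain ⟨x, hx, rfl⟩ := hx
  refine ⟨x, hx, ε, hε, fun y hy => ?_⟩
  have := hb (a + y) (pc_translate hy)
  simpa using this

/-- a norming functional -/
theorem norming (M : Seminorm ℝ X) (C : ℝ) (hC : ∀ x, M x ≤ C * ‖x‖) (e : X) (he : M e = 1) :
    ∃ f : X →L[ℝ] ℝ, f e = 1 ∧ ∀ x, f x ≤ M x := by
  have he0 : e ≠ 0 := by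
    rintro rfl
    simp at he
  obtain ⟨g, hg1, hg2⟩ := exists_extension_of_le_sublinear
    (⟨Submodule.span ℝ {e}, (LinearEquiv.coord ℝ X e he0).toLinearMap⟩ : X →ₗ.[ℝ] ℝ) M
    (fun c hc x => by rw [map_smul_eq_mul, Real.norm_of_nonneg hc.le]) (fun x y => map_add_le_add M x y)
    (by
      intro x
      have h1 := LinearEquiv.coord_apply_smul ℝ X e he0 x
      change LinearEquiv.coord ℝ X e he0 x ≤ M (x : X)
      calc LinearEquiv.coord ℝ X e he0 x ≤ ‖LinearEquiv.coord ℝ X e he0 x‖ := Real.le_norm_self _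
        _ = M (LinearEquiv.coord ℝ X e he0 x • e) := by rw [map_smul_eq_mul, he, mul_one]
        _ = M (x : X) := by rw [h1])
  have hge : g e = 1 := by
    have h1 := hg1 ⟨e, Submodule.mem_span_singleton_self e⟩
    exact h1.trans (LinearEquiv.coord_self ℝ X e he0)
  refine ⟨g.mkContinuous C fun x => ?_, hge, hg2⟩
  rw [Real.norm_eq_abs, abs_le]
  constructor
  · have h1 := hg2 (-x)
    rw [map_neg, map_neg_eq_map] at h1
    linarith [hC x]
  · exact (hg2 x).trans (hC x)

/-- Kadec points of the sphere are points of weak-to-norm continuity of the ball -/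
theorem pc_of_kadec (M : Seminorm ℝ X) (hM : Equivalent M) (e : X) (he : IsKadecPoint M e) :
    IsPC (M.closedBall 0 1) e := by
  classical
  obtain ⟨c, C, hc, hcC⟩ := hM
  refine ⟨by rw [Seminorm.mem_closedBall, sub_zero, he.1], fun ε hε => ?_⟩
  obtain ⟨F, η, hη, hF⟩ := he.2 (ε / 2) (by linarith)
  obtain ⟨f₀, hf₀, hf₀'⟩ := norming M C (fun x => (hcC x).2) e he.1
  obtain ⟨B, hB0, hB⟩ : ∃ B : ℝ, 0 < B ∧ ∀ f ∈ F, ‖f‖ ≤ B := by
    refine ⟨1 + ∑ f ∈ F, ‖f‖, by positivity, fun f hf => ?_⟩
    have := Finset.single_le_sum (f := fun f : X →L[ℝ] ℝ => ‖f‖) (fun _ _ => norm_nonneg _) hf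
    linarith
  obtain ⟨δ, hδ0, hδ1, hδ2, hδ3⟩ : ∃ δ : ℝ, 0 < δ ∧ δ ≤ 1 / 2 ∧ 2 * δ / c ≤ ε / 2 ∧
      B * (2 * δ / c) ≤ η / 2 := by
    refine ⟨min (1 / 2) (min (c * ε / 4) (c * η / (4 * B))), by positivity, min_le_left _ _, ?_, ?_⟩
    · rw [div_le_iff₀ hc]
      have : min (1 / 2) (min (c * ε / 4) (c * η / (4 * B))) ≤ c * ε / 4 :=
        (min_le_right _ _).trans (min_le_left _ _)
      linarith
    · have h1 : min (1 / 2) (min (c * ε / 4) (c * η / (4 * B))) ≤ c * η / (4 * B) :=
        (min_le_right _ _).trans (min_le_right _ _)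
      calc B * (2 * min (1 / 2) (min (c * ε / 4) (c * η / (4 * B))) / c)
          ≤ B * (2 * (c * η / (4 * B)) / c) := by gcongr
        _ = η / 2 := by field_simp; ring
  refine ⟨insert f₀ F, min δ (η / 2), by positivity, fun z hz hzF => ?_⟩
  rw [Seminorm.mem_closedBall, sub_zero] at hz
  have h1 : 1 - δ < M z := by
    have h2 := hzF f₀ (Finset.mem_insert_self _ _)
    rw [hf₀, abs_lt] at h2
    have h3 := min_le_left δ (η / 2)
    linarith [hf₀' z]
  have hz0 : 0 < M z := by linarith
  obtain ⟨w, hw⟩ : ∃ w, w = (M z)⁻¹ • z := ⟨_, rfl⟩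
  have hw1 : M w = 1 := by
    rw [hw, map_smul_eq_mul, norm_inv, Real.norm_of_nonneg hz0.le, inv_mul_cancel₀ hz0.ne']
  have hwz : ‖w - z‖ ≤ 2 * δ / c := by
    have h2 : w - z = ((M z)⁻¹ - 1) • z := by rw [hw, sub_smul, one_smul]
    have h3 : (1 : ℝ) ≤ (M z)⁻¹ := by
      rw [le_inv_comm₀ one_pos hz0, inv_one]
      exact hz
    have h4 : (M z)⁻¹ * M z = 1 := inv_mul_cancel₀ hz0.ne'
    have h5 : ‖z‖ ≤ M z / c := by
      rw [le_div_iff₀ hc, mul_comm]
      exact (hcC z).1
    rw [h2, norm_smul, Real.norm_of_nonneg (by linarith)]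
    calc ((M z)⁻¹ - 1) * ‖z‖ ≤ ((M z)⁻¹ - 1) * (M z / c) :=
          mul_le_mul_of_nonneg_left h5 (by linarith)
      _ = (1 - M z) / c := by field_simp
      _ ≤ 2 * δ / c := by
          gcongr
          linarith
  have hwe : ‖w - e‖ < ε / 2 := by
    refine hF w hw1 fun f hf => ?_
    have h2 := hzF f (Finset.mem_insert_of_mem hf)
    have h3 : |f w - f z| ≤ η / 2 := by
      rw [← map_sub, ← Real.norm_eq_abs]
      calc ‖f (w - z)‖ ≤ ‖f‖ * ‖w - z‖ := f.le_opNorm _
        _ ≤ B * (2 * δ / c) := by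
            gcongr
            exact hB f hf
        _ ≤ η / 2 := hδ3
    have h4 := min_le_right δ (η / 2)
    calc |f w - f e| = |(f w - f z) + (f z - f e)| := by ring_nf
      _ ≤ |f w - f z| + |f z - f e| := abs_add_le _ _
      _ < η := by linarith
  calc ‖z - e‖ = ‖(w - e) - (w - z)‖ := by congr 1; abel
    _ ≤ ‖w - e‖ + ‖w - z‖ := norm_sub_le _ _
    _ < ε := by linarith

/-- points of weak-to-norm continuity of dilated translates -/
theorem pc_dilate (M : Seminorm ℝ X) {e c : X} {r : ℝ} (hr : 0 < r)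
    (h : IsPC (M.closedBall 0 1) e) : IsPC (M.closedBall c r) (c + r • e) := by
  have he := h.1
  rw [Seminorm.mem_closedBall, sub_zero] at he
  refine ⟨?_, fun ε hε => ?_⟩
  · rw [Seminorm.mem_closedBall, add_sub_cancel_left, map_smul_eq_mul, Real.norm_of_nonneg hr.le]
    exact mul_le_of_le_one_right hr.le he
  obtain ⟨F, η, hη, hF⟩ := h.2 (ε / r) (by positivity)
  refine ⟨F, r * η, by positivity, fun z hz hzF => ?_⟩
  rw [Seminorm.mem_closedBall] at hz
  have h1 := hF (r⁻¹ • (z - c))
    (by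
      rw [Seminorm.mem_closedBall, sub_zero, map_smul_eq_mul, norm_inv, Real.norm_of_nonneg hr.le,
        inv_mul_le_iff₀ hr, mul_one]
      exact hz)
    (fun f hf => by
      have h2 := hzF f hf
      have h3 : f (r⁻¹ • (z - c)) - f e = r⁻¹ * (f z - f (c + r • e)) := by
        simp only [map_smul, map_sub, map_add, smul_eq_mul]
        field_simp
        ring
      rw [h3, abs_mul, abs_of_pos (inv_pos.2 hr), inv_mul_lt_iff₀ hr]
      exact h2)
  have h2 : z - (c + r • e) = r • (r⁻¹ • (z - c) - e) := by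
    rw [smul_sub, smul_smul, mul_inv_cancel₀ hr.ne', one_smul]
    abel
  rw [h2, norm_smul, Real.norm_of_nonneg hr.le, mul_comm]
  exact (lt_div_iff₀ hr).1 h1

theorem continuous_of_equivalent (M : Seminorm ℝ X) (hM : Equivalent M) : Continuous M := by
  obtain ⟨c, C, hc, hcC⟩ := hM
  have h : LipschitzWith (Real.toNNReal |C|) M := by
    refine LipschitzWith.of_dist_le_mul fun x y => ?_
    rw [Real.coe_toNNReal _ (abs_nonneg C), Real.dist_eq, dist_eq_norm]
    have h1 := (abs_sub_map_le_sub M x y).trans (hcC (x - y)).2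
    exact h1.trans (mul_le_mul_of_nonneg_right (le_abs_self C) (norm_nonneg _))
  exact h.continuous

theorem closedBall_eq (M : Seminorm ℝ X) (c : X) (r : ℝ) :
    M.closedBall c r = {x | M (x - c) ≤ r} := by
  ext x
  rw [Seminorm.mem_closedBall]
  rfl

theorem body_of_ball (M : Seminorm ℝ X) (hM : Equivalent M) (c : X) (r : ℝ) (hr : 0 < r) :
    IsBody (M.closedBall c r) := by
  have hcont := continuous_of_equivalent M hM
  have hcont' : Continuous fun x : X => M (x - c) := hcont.comp (continuous_id.sub continuous_const)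
  refine ⟨?_, M.convex_closedBall c r, ?_, ?_⟩
  · rw [closedBall_eq]
    exact isClosed_le hcont' continuous_const
  · obtain ⟨a, C, ha, haC⟩ := hM
    refine (Metric.isBounded_closedBall (x := c) (r := r / a)).subset fun x hx => ?_
    rw [Seminorm.mem_closedBall] at hx
    rw [Metric.mem_closedBall, dist_eq_norm, le_div_iff₀ ha, mul_comm]
    exact (haC (x - c)).1.trans hx
  · refine ⟨c, mem_interior.2 ⟨{x | M (x - c) < r}, fun x hx => ?_,
      isOpen_lt hcont' continuous_const, ?_⟩⟩
    · rw [Seminorm.mem_closedBall]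
      exact le_of_lt hx
    · change M (c - c) < r
      rw [sub_self, map_zero]
      exact hr

/-- balls of a norm with a dense set of Kadec points in the sphere -/
theorem not_bad_of_ball (M : Seminorm ℝ X) (hM : Equivalent M)
    (hd : ∀ u, M u = 1 → ∀ ε > 0, ∃ e, IsKadecPoint M e ∧ ‖e - u‖ < ε) (c : X) (r : ℝ)
    (hr : 0 < r) : ¬ HasBadPart (M.closedBall c r) := by
  rintro ⟨x, hx, ε, hε, hb⟩
  have hcont' : Continuous fun x : X => M (x - c) :=
    (continuous_of_equivalent M hM).comp (continuous_id.sub continuous_const)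
  have hxr : M (x - c) = r := by
    rw [closedBall_eq] at hx
    exact frontier_le_subset_eq hcont' continuous_const hx
  obtain ⟨e, he, heu⟩ := hd (r⁻¹ • (x - c))
    (by rw [map_smul_eq_mul, norm_inv, Real.norm_of_nonneg hr.le, hxr, inv_mul_cancel₀ hr.ne'])
    (ε / r) (by positivity)
  have h1 := hb (c + r • e) (pc_dilate M hr (pc_of_kadec M hM e he))
  have h2 : c + r • e - x = r • (e - r⁻¹ • (x - c)) := by
    rw [smul_sub, smul_smul, mul_inv_cancel₀ hr.ne', one_smul]
    abel
  rw [h2, norm_smul, Real.norm_of_nonneg hr.le] at h1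
  have h3 := (lt_div_iff₀ hr).1 heu
  linarith

theorem hasExtremePoints_of_reflexive (h : IsReflexive X) : HasExtremePoints X :=
  fun K hKc hKb hKv hKn => Pool.Agent.N322.NT.t_REF X h K hKc hKb hKv hKn

theorem reflexive_of_hilbert (H : Type u) [NormedAddCommGroup H] [InnerProductSpace ℝ H]
    [CompleteSpace H] : IsReflexive H := by
  intro φ
  obtain ⟨g, hg⟩ : ∃ g : H →L[ℝ] ℝ, ∀ x, g x = φ (InnerProductSpace.toDual ℝ H x) :=
    ⟨LinearMap.mkContinuous
      { toFun := fun x => φ (InnerProductSpace.toDual ℝ H x)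
        map_add' := fun x y => by simp only [map_add]
        map_smul' := fun t x => by simp } ‖φ‖ fun x => by
          change ‖φ (InnerProductSpace.toDual ℝ H x)‖ ≤ ‖φ‖ * ‖x‖
          calc ‖φ (InnerProductSpace.toDual ℝ H x)‖
              ≤ ‖φ‖ * ‖InnerProductSpace.toDual ℝ H x‖ := φ.le_opNorm _
            _ = ‖φ‖ * ‖x‖ := by rw [LinearIsometryEquiv.norm_map], fun x => rfl⟩
  obtain ⟨y, hy⟩ := (InnerProductSpace.toDual ℝ H).surjective g
  refine ⟨y, ?_⟩
  ext f
  obtain ⟨x, rfl⟩ := (InnerProductSpace.toDual ℝ H).surjective f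
  rw [NormedSpace.dual_def, InnerProductSpace.toDual_apply_apply, real_inner_comm, ← hg, ← hy,
    InnerProductSpace.toDual_apply_apply]

/-- the theorem in a space with extreme points -/
theorem main (X : Type u) [NormedAddCommGroup X] [NormedSpace ℝ X] [CompleteSpace X]
    (hK : HasExtremePoints X) (hinf : ¬ FiniteDimensional ℝ X) :
    (∀ 𝒯 : Set (Set X), IsTiling 𝒯 → 𝒯.Countable → ∃ T ∈ 𝒯, HasBadPart T) ∧
    (TopologicalSpace.SeparableSpace X →
      (∀ 𝒯 : Set (Set X), IsTiling 𝒯 → ∃ T ∈ 𝒯, HasBadPart T) ∧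
      (∀ K A : Set X, IsTiling ((fun a => (fun x => a + x) '' K) '' A) → HasBadPart K) ∧
      (∀ M : Seminorm ℝ X, Equivalent M →
        (∀ u, M u = 1 → ∀ ε > 0, ∃ e, IsKadecPoint M e ∧ ‖e - u‖ < ε) →
        ∀ 𝒯 : Set (Set X), ¬ IsBallTiling M 𝒯)) := by
  refine ⟨fun 𝒯 hT hc => core hK hinf 𝒯 hT hc, fun hsep => ?_⟩
  have h1 : ∀ 𝒯 : Set (Set X), IsTiling 𝒯 → ∃ T ∈ 𝒯, HasBadPart T := fun 𝒯 hT =>
    core hK hinf 𝒯 hT (countable_of_tiling hT)
  refine ⟨h1, fun K A hT => ?_, fun M hM hd 𝒯 hT => ?_⟩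
  · obtain ⟨T, ⟨a, -, rfl⟩, hb⟩ := h1 _ hT
    exact bad_of_translate hb
  · obtain ⟨T, hTT, hb⟩ := h1 𝒯 ⟨fun T hTT => by
      obtain ⟨c, r, hr, rfl⟩ := hT.1 T hTT
      exact body_of_ball M hM c r hr, hT.2.1, hT.2.2⟩
    obtain ⟨c, r, hr, rfl⟩ := hT.1 T hTT
    exact not_bad_of_ball M hM hd c r hr hb

end proofs

/-- **Tilings and points of weak-to-norm continuity.**

1. Let `X` be an infinite-dimensional Banach space in which every nonempty closed bounded convex set
has an extreme point. In every countable tiling of `X` by bounded convex bodies there is a tile `T`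
whose boundary has a nonempty relatively open part without points of weak-to-norm continuity of `T`.
If `X` is separable, all tilings are countable and:
(a) if `X` has a tiling by translates of a set `K`, then the boundary of `K` has such a part, and
(b) if `M` is an equivalent norm whose Kadec points are dense in its unit sphere, then `X` has no
tiling by closed `M`-balls of positive (arbitrary) radii.

2. All reflexive spaces, and all Hilbert spaces, have the property of `X` about extreme points. -/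
theorem result :
    (∀ (X : Type u) [NormedAddCommGroup X] [NormedSpace ℝ X] [CompleteSpace X],
      HasExtremePoints X → ¬ FiniteDimensional ℝ X →
      (∀ 𝒯 : Set (Set X), IsTiling 𝒯 → 𝒯.Countable → ∃ T ∈ 𝒯, HasBadPart T) ∧
      (TopologicalSpace.SeparableSpace X →
        (∀ 𝒯 : Set (Set X), IsTiling 𝒯 → ∃ T ∈ 𝒯, HasBadPart T) ∧
        (∀ K A : Set X, IsTiling ((fun a => (fun x => a + x) '' K) '' A) → HasBadPart K) ∧
        (∀ M : Seminorm ℝ X, Equivalent M →
          (∀ u, M u = 1 → ∀ ε > 0, ∃ e, IsKadecPoint M e ∧ ‖e - u‖ < ε) →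
          ∀ 𝒯 : Set (Set X), ¬ IsBallTiling M 𝒯))) ∧
    (∀ (X : Type u) [NormedAddCommGroup X] [NormedSpace ℝ X], IsReflexive X → HasExtremePoints X) ∧
    (∀ (H : Type u) [NormedAddCommGroup H] [InnerProductSpace ℝ H] [CompleteSpace H],
      HasExtremePoints H) :=
  ⟨fun X _ _ _ hK hinf => main X hK hinf, fun _ _ _ h => hasExtremePoints_of_reflexive h,
    fun H _ _ _ => hasExtremePoints_of_reflexive (reflexive_of_hilbert H)⟩

end Pool.Agent.Results.MP_3191e9_an.WeakToNormContinuity
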